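import Pool.Agent.Lib.MP_5c318e_ag.Fb.Sub

/-! Balls of hermitian forms, linear changes of variables, functions on a disc with punctures. -/

set_option autoImplicit false
set_option linter.unusedSectionVars false

namespace Pool.Agent.Lib.MP_5c318e_ag.Fb

open Complex Filter Topology Matrix MeasureTheory Metric ProbabilityTheory
open Pool.Agent.Lib.MP_5c318e_ag.V
open scoped ContDiff ComplexConjugate ComplexOrder ENNReal

noncomputable section

variable {r : Type} [Fintype r] [DecidableEq r]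

/-- the ball of a hermitian form -/
def Bl (h : Matrix r r ℂ) (R : ℝ) : Set (r → ℂ) := {b | (star b ⬝ᵥ h *ᵥ b).re < R}

theorem isOpen_Bl (h : Matrix r r ℂ) (R : ℝ) : IsOpen (Bl h R) :=
  isOpen_lt (by fun_prop) continuous_const

theorem mem_Bl (h A : Matrix r r ℂ) (R : ℝ) (a : r → ℂ) :
    A *ᵥ a ∈ Bl h R ↔ a ∈ Bl (Aᴴ * h * A) R := by
  simp only [Bl, Set.mem_ofPred_eq, star_mulVec, dotProduct_mulVec, vecMul_vecMul]

theorem Bl_lt_top {h : Matrix r r ℂ} (H : h.PosDef) (R : ℝ) : volume (Bl h R) < ⊤ := by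
  obtain ⟨B, u, rfl⟩ := exists_sqrt H
  have c : IsCompact ((fun c : r → ℂ => B⁻¹ *ᵥ c) '' closedBall 0 √R) :=
    (isCompact_closedBall _ _).image (by fun_prop)
  refine (measure_mono fun b hb => ?_).trans_lt c.measure_lt_top
  refine ⟨B *ᵥ b, ?_, by simp only [mulVec_mulVec, Matrix.nonsing_inv_mul _ u, one_mulVec]⟩
  have h1 : B *ᵥ b ∈ Bl 1 R := (mem_Bl 1 B R b).2 (by rwa [Matrix.mul_one])
  generalize B *ᵥ b = c at h1
  rw [mem_closedBall_zero_iff, pi_norm_le_iff_of_nonneg (Real.sqrt_nonneg _)]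
  intro i
  refine Real.le_sqrt_of_sq_le (le_trans ?_ (le_of_lt h1))
  simp only [one_mulVec, dotProduct, Pi.star_apply, RCLike.star_def, conj_mul', re_sum,
    ← ofReal_pow, ofReal_re]
  exact Finset.single_le_sum (f := fun j => ‖c j‖ ^ 2) (fun _ _ => sq_nonneg _) (Finset.mem_univ i)

theorem map_mulVec {A : Matrix r r ℂ} (hA : A.det ≠ 0) : ∃ c : ℝ≥0∞, c ≠ 0 ∧ c ≠ ⊤ ∧
    Measure.map (fun a : r → ℂ => A *ᵥ a) volume = c • volume := by
  let e : (r → ℂ) ≃ₗ[ℝ] (r → ℂ) := (Matrix.toLinearEquiv' A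
    (Matrix.invertibleOfIsUnitDet A hA.isUnit)).restrictScalars ℝ
  have d : LinearMap.det (e : (r → ℂ) →ₗ[ℝ] (r → ℂ)) ≠ 0 := e.isUnit_det'.ne_zero
  exact ⟨_, by simpa using d, ENNReal.ofReal_ne_top,
    Measure.map_linearMap_addHaar_eq_smul_addHaar volume d⟩

theorem ae_mulVec {A : Matrix r r ℂ} (hA : A.det ≠ 0) {p : (r → ℂ) → Prop}
    (h : ∀ᵐ b, p b) : ∀ᵐ a, p (A *ᵥ a) := by
  obtain ⟨c, -, -, e⟩ := map_mulVec hA
  refine ae_of_ae_map (f := fun a : r → ℂ => A *ᵥ a) (Continuous.aemeasurable (by fun_prop)) ?_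
  rw [e]
  exact Measure.ae_smul_measure h c

theorem int_cond {A : Matrix r r ℂ} (hA : A.det ≠ 0) (h : Matrix r r ℂ) (R : ℝ)
    (F : (r → ℂ) → ℝ) :
    ∫ b, F b ∂volume[|Bl h R] = ∫ a, F (A *ᵥ a) ∂volume[|Bl (Aᴴ * h * A) R] := by
  obtain ⟨c, c0, c1, e⟩ := map_mulVec hA
  have u := hA.isUnit
  let f : (r → ℂ) ≃ₜ (r → ℂ) :=
    { toFun := fun a => A *ᵥ a
      invFun := fun a => A⁻¹ *ᵥ a
      left_inv := fun a => by simp only [mulVec_mulVec, Matrix.nonsing_inv_mul _ u, one_mulVec]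
      right_inv := fun a => by simp only [mulVec_mulVec, Matrix.mul_nonsing_inv _ u, one_mulVec]
      continuous_toFun := by fun_prop
      continuous_invFun := by fun_prop }
  have m : MeasurableEmbedding fun a : r → ℂ => A *ᵥ a := f.measurableEmbedding
  have p : Bl (Aᴴ * h * A) R = (fun a : r → ℂ => A *ᵥ a) ⁻¹' Bl h R :=
    Set.ext fun a => (mem_Bl h A R a).symm
  rw [← m.integral_map, ProbabilityTheory.cond, ProbabilityTheory.cond,
    Measure.map_smul, p, ← m.restrict_map, ← m.map_apply, e,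
    Measure.restrict_smul, smul_smul, Measure.smul_apply, smul_eq_mul,
    ENNReal.mul_inv (Or.inl c0) (Or.inl c1), mul_right_comm, ENNReal.inv_mul_cancel c0 c1, one_mul]

theorem ae_of_cond {h : Matrix r r ℂ} (H : h.PosDef) {p : (r → ℂ) → Prop}
    (hp : ∀ R : ℕ, ∀ᵐ a ∂volume[|Bl h R], p a) : ∀ᵐ a, p a := by
  have : ∀ᵐ a, ∀ R : ℕ, a ∈ Bl h R → p a := ae_all_iff.2 fun R => by
    have := hp R
    rwa [ProbabilityTheory.cond,
      Measure.ae_ennreal_smul_measure_iff (ENNReal.inv_ne_zero.2 (Bl_lt_top H R).ne),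
      ae_restrict_iff' (isOpen_Bl h R).measurableSet] at this
  refine this.mono fun a ha => ?_
  obtain ⟨R, hR⟩ := exists_nat_gt (star a ⬝ᵥ h *ᵥ a).re
  exact ha R hR

theorem const_off {φ : ℂ → ℝ} {q : ℂ → ℂ} (hq : AnalyticOnNhd ℂ q (ball 0 2)) (h0 : q 0 ≠ 0)
    (h1 : q 1 ≠ 0) (h : ∀ t ∈ ball (0 : ℂ) 2, q t ≠ 0 → ContDiffAt ℝ ∞ φ t ∧
      der (-I) 1 (fun t => (φ t : ℂ)) t = 0) : φ 1 = φ 0 := by
  have m0 : (0 : ℂ) ∈ ball (0 : ℂ) 2 := mem_ball_self two_pos
  have m1 : (1 : ℂ) ∈ ball (0 : ℂ) 2 := by simp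
  have cz : {t | t ∈ ball (0 : ℂ) 2 ∧ q t = 0}.Countable := by
    have : DiscreteTopology {t | t ∈ ball (0 : ℂ) 2 ∧ q t = 0} := by
      refine discreteTopology_subtype_iff.2 fun t ht => ?_
      rcases (hq t ht.1).eventually_eq_zero_or_eventually_ne_zero with e | e
      · exact absurd (hq.eqOn_zero_of_preconnected_of_eventuallyEq_zero
          (convex_ball _ _).isPreconnected ht.1 e m0) h0
      · exact inf_principal_eq_bot.2 (e.mono fun s hs hh => hs hh.2)
    exact Set.countable_coe_iff.1 countable_of_Lindelof_of_discrete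
  let e := OpenPartialHomeomorph.univBall (0 : ℂ) 2
  have es : e.source = Set.univ := OpenPartialHomeomorph.univBall_source _ _
  have et : e.target = ball 0 2 := OpenPartialHomeomorph.univBall_target _ two_pos
  have c1 := ((cz.preimage_of_injOn (f := e) fun a _ b _ hab => e.injOn (by rw [es]; trivial)
    (by rw [es]; trivial) hab).isConnected_compl_of_one_lt_rank (by simp)).isPreconnected.image e
    (OpenPartialHomeomorph.continuous_univBall _ _).continuousOn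
  have c2 : e '' (e ⁻¹' {t | t ∈ ball (0 : ℂ) 2 ∧ q t = 0})ᶜ = {t | t ∈ ball (0 : ℂ) 2 ∧ q t ≠ 0} := by
    ext t
    constructor
    · rintro ⟨s, hs, rfl⟩
      have : e s ∈ ball (0 : ℂ) 2 := et ▸ e.map_source (by rw [es]; trivial)
      exact ⟨this, fun z => hs ⟨this, z⟩⟩
    · rintro ⟨a, b⟩
      have := e.right_inv (et ▸ a)
      exact ⟨e.symm t, fun z => b (this ▸ z.2), this⟩
  rw [c2] at c1
  refine ofReal_injective (const_of_der (f := fun t => (φ t : ℂ))
    (hq.continuousOn.isOpen_inter_preimage isOpen_ball isOpen_compl_singleton) c1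
    (fun t ht => (sm_ofReal (h t ht.1 ht.2).1).diff) (fun t ht ξ => ?_) ⟨m1, h1⟩ ⟨m0, h0⟩)
  have d : der (-I) ξ (fun t => (φ t : ℂ)) t = 0 := by
    rw [← mul_one ξ, ← smul_eq_mul, d_vec_smul, (h t ht.1 ht.2).2, mul_zero]
  exact ⟨d, by rw [dbar_ofReal_eq ((h t ht.1 ht.2).1.differentiableAt (by simp)), d, map_zero]⟩

end

end Pool.Agent.Lib.MP_5c318e_ag.Fb
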