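import Pool.Agent.Lib.MP_5c318e_ag.Fb.ParB
import Pool.Agent.Lib.MP_5c318e_ag.Av.ParA
import Pool.Agent.Lib.MP_5c318e_ag.Av.Top
import Pool.Agent.Lib.MP_5c318e_ag.Z.LDefs

/-! Local holomorphic frames that are isometric along the slices. -/

set_option autoImplicit false
set_option linter.unusedSectionVars false

namespace Pool.Agent.Lib.MP_5c318e_ag

open Complex Filter Topology Matrix MeasureTheory Metric
open Pool.Agent.Lib.MP_5c318e_ag.V Pool.Agent.Lib.MP_5c318e_ag.Fl Pool.Agent.Lib.MP_5c318e_ag.G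
open Pool.Agent.Lib.MP_5c318e_ag.Av
open scoped ComplexConjugate ComplexOrder

noncomputable section

section top

variable {E : Type} [NormedAddCommGroup E] [NormedSpace ℂ E] {s n : Type} [Fintype s]
  [DecidableEq s] [Fintype n] [DecidableEq n] {K : ℝ} {G : E → Matrix s s ℂ} {x0 : E}

theorem TopAt.flt (h : TopAt n K G x0) : Flt G x0 := by
  obtain ⟨U, h, Y, Q, X, p, h0, hG, H⟩ := h
  exact flt_of_top h0 hG H

theorem TopAt.subAt (h : TopAt n K G x0) {a : E → s → ℂ}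
    (ha : ∀ y i, AnalyticAt ℂ (fun y => a y i) y) (h0 : a x0 ≠ 0) :
    Fb.SubAt (ld G) (fun y => (star (a y) ⬝ᵥ G y *ᵥ a y).re) x0 := by
  obtain ⟨U, h, Y, Q, X, p, hx, hG, H⟩ := h
  have e : ∀ᶠ y in 𝓝 x0, G y = (X y)ᴴ * h y * X y :=
    eventually_of_mem (hG.op.mem_nhds hx) fun y hy => (H y hy).2.2.2.1
  exact (Fb.subAt_top hG (fun x hx => (H x hx).1) (fun x hx => (H x hx).2.1)
    (fun x hx => (H x hx).2.2.2.2.1) hx (H x0 hx).2.2.2.2.2 ha h0).congr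
    (e.mono fun y hy => by simp only [ld, hy]) (e.mono fun y hy => by simp only [hy])

end top

namespace Fb

variable {κ γ r S : Type} [Fintype κ] [DecidableEq κ] [Fintype γ] [DecidableEq γ]
  [Fintype r] [DecidableEq r] [TopologicalSpace S] [MeasurableSpace S] [T2Space S]
  {D : RD (κ ⊕ γ) S} {q g : (κ ⊕ γ → ℂ) → ℂ}

theorem Inp.par_ball {J : Inp D g r} (P : Prp D q) (hg : PolyG g)
    (hA : ∀ y, g (D.π y) ≠ 0 → ∃ δ > 0, ∃ A, J.Loc y δ A) {y : S} {δ : ℝ}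
    {A : (κ ⊕ γ → ℂ) → Matrix r r ℂ} (H : J.Loc y δ A) {z z' : κ ⊕ γ → ℂ}
    (hz : z ∈ ball (D.π y) δ) (hz' : z' ∈ ball (D.π y) δ) (e : wc z' = wc z) (a : r → ℂ) :
    J.N (D.sec y z') (A z' *ᵥ a) = J.N (D.sec y z) (A z *ᵥ a) := by
  have c : Convex ℝ (ball (D.π y) δ ∩ {x | wc x = wc z}) :=
    (convex_ball _ _).inter fun u hu v hv s t _ _ hst => funext fun i => by
      have h1 : u (Sum.inl i) = z (Sum.inl i) := congrFun hu i
      have h2 : v (Sum.inl i) = z (Sum.inl i) := congrFun hv i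
      simp only [wc, Pi.add_apply, Pi.smul_apply, h1, h2, ← add_smul, hst, one_smul]
  refine c.isPreconnected.induction₂'
    (fun u v => J.N (D.sec y u) (A u *ᵥ a) = J.N (D.sec y v) (A v *ᵥ a)) (fun u hu => ?_)
    (fun _ _ _ _ _ _ => Eq.trans) ⟨hz', e⟩ ⟨hz, rfl⟩
  filter_upwards [nhdsWithin_le_nhds (Inp.par_b P hg hA H hu.1), self_mem_nhdsWithin] with v v1 v2
  have := v1 (v2.2.trans hu.2.symm) a
  exact ⟨this.symm, this⟩

/-- the frames of the flat step, uniform on a ball -/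
theorem par_frames (P : Prp D q) (hg : PolyG g)
    (N : S → (r → ℂ) → ℝ) (Dd : S → ℝ) (g0 : S → ℂ) (h2 : S → Matrix r r ℂ)
    (H : S → (r → ℂ) → Matrix r r ℂ) (Del : S → (r → ℂ) → ℂ) {m a1 k : ℕ} {s c0 : ℝ}
    (hm : 0 < m) (ha : 0 < a1) (hk : 0 < k) (hc : 0 < c0)
    (hD : ∀ y, g (D.π y) ≠ 0 → 0 < Dd y)
    (hg0 : ∀ y, g (D.π y) ≠ 0 → g0 y ≠ 0 ∧ DifferentiableAt ℂ (fun z => g0 (D.sec y z)) (D.π y))
    (hor : ∀ y, g (D.π y) ≠ 0 → ∀ᶠ y' in 𝓝 y, wc (D.π y') = wc (D.π y) →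
      ‖g0 y'‖ ^ 2 * Dd y' ^ (m * a1) = ‖g0 y‖ ^ 2 * Dd y ^ (m * a1))
    (t2 : ∀ y, g (D.π y) ≠ 0 → Flt (fun z => h2 (D.sec y z)) (D.π y))
    (b2 : ∀ y, g (D.π y) ≠ 0 → ∀ a, c0 * (N y a ^ m * Dd y ^ s) ≤ (star a ⬝ᵥ h2 y *ᵥ a).re)
    (d2 : ∀ y, g (D.π y) ≠ 0 → c0 * Dd y ^ (m + Fintype.card r * s) ≤ (h2 y).det.re)
    (hN : ∀ y, g (D.π y) ≠ 0 → (∀ a, 0 ≤ N y a) ∧ Continuous (N y))
    (hDel : ∀ y, g (D.π y) ≠ 0 → (∀ᵐ a, Del y a ≠ 0) ∧ ∀ a, AnalyticAt ℂ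
      (fun p : (κ ⊕ γ → ℂ) × (r → ℂ) => Del (D.sec y p.1) p.2) (D.π y, a))
    (t3 : ∀ y, g (D.π y) ≠ 0 → ∀ a, Del y a ≠ 0 →
      (∃ (n : ℕ) (K : ℝ), TopAt (Fin n) K
        (fun p : (κ ⊕ γ → ℂ) × (r → ℂ) => H (D.sec y p.1) p.2) (D.π y, a)) ∧
      N y a = (star a ⬝ᵥ H y a *ᵥ a).re ∧ c0 * Dd y ^ m ≤ (H y a).det.re * N y a ^ k)
    {y : S} (hy : g (D.π y) ≠ 0) : ∃ δ > 0, ∃ A : (κ ⊕ γ → ℂ) → Matrix r r ℂ,
      ball (D.π y) δ ⊆ (D.ch y).target ∧
      (∀ z ∈ ball (D.π y) δ, g z ≠ 0 ∧ (∀ i j, AnalyticAt ℂ (fun z => A z i j) z) ∧ (A z).det ≠ 0) ∧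
      ∀ z ∈ ball (D.π y) δ, ∀ z' ∈ ball (D.π y) δ, wc z' = wc z →
        (∀ a, N (D.sec y z') (A z' *ᵥ a) = N (D.sec y z) (A z *ᵥ a)) ∧
        (A z').det ^ a1 * g0 (D.sec y z) = (A z).det ^ a1 * g0 (D.sec y z') := by
  let J : Inp D g r :=
    { N := N
      L := fun y a => Real.log (H y a).det.re
      Del := Del
      E := fun y => Dd y ^ m
      h := fun y => ((Dd y ^ (-s) : ℝ) : ℂ) • h2 y
      pos := fun y hy => pow_pos (hD y hy) m
      pd := fun y hy => by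
        obtain ⟨_, _, _, U, _, _, -, h0, h1⟩ := t2 y hy
        have := (h1 _ h0).2.2.1
        simp only [D.sec_self] at this
        exact this.smul (by exact_mod_cast Real.rpow_pos_of_pos (hD y hy) _)
      cont := fun y hy => (hN y hy).2
      ae := fun y hy => (hDel y hy).1
      ana := fun y hy => (hDel y hy).2
      sub := fun y hy a h0 => by
        obtain ⟨⟨n, K, h1⟩, h3, h4⟩ := t3 y hy a h0
        have a0 : a ≠ 0 := fun e => by
          rw [h3, e] at h4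
          simp only [mulVec_zero, dotProduct_zero, zero_re, zero_pow hk.ne', mul_zero] at h4
          exact h4.not_gt (mul_pos hc (pow_pos (hD y hy) m))
        refine (h1.subAt (a := Prod.snd) (fun p i => analyticAt_pi_iff.1 analyticAt_snd i)
          a0).congr (.of_forall fun _ => rfl) ?_
        have t := (continuousAt_fst (p := (D.π y, a))).tendsto
        filter_upwards [((hDel y hy).2 a).continuousAt.eventually_ne (by rwa [D.sec_self]),
          t.eventually (D.π_sec_ev y),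
          t.eventually (hg.hol.continuous.continuousAt.eventually_ne hy)] with p p1 p2 p3
        exact (t3 _ (by rwa [p2]) _ p1).2.1
      bd := fun R => by
        refine ⟨(1 + |R| / c0) ^ k / c0 * (1 + (1 + |R| / c0)), fun y hy a h1 h0 => ?_⟩
        obtain ⟨-, -, h4⟩ := t3 y hy a h0
        have d := hD y hy
        have n0 := (hN y hy).1 a
        have p := mul_pos hc (pow_pos d m)
        have e0 : 0 < (H y a).det.re := pos_of_mul_pos_left (p.trans_le h4) (pow_nonneg n0 k)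
        have n1 : N y a ^ m ≤ |R| / c0 := by
          have h5 : (star a ⬝ᵥ (((Dd y ^ (-s) : ℝ) : ℂ) • h2 y) *ᵥ a).re < R := h1
          rw [smul_mulVec, dotProduct_smul, smul_eq_mul, re_ofReal_mul] at h5
          have h6 := mul_le_mul_of_nonneg_left (b2 y hy a) (Real.rpow_pos_of_pos d (-s)).le
          rw [show Dd y ^ (-s) * (c0 * (N y a ^ m * Dd y ^ s)) = N y a ^ m * c0 by
            rw [Real.rpow_neg d.le]
            field_simp [(Real.rpow_pos_of_pos d s).ne']] at h6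
          exact (le_div_iff₀ hc).2 (h6.trans (h5.le.trans (le_abs_self R)))
        have r0 : 0 ≤ |R| / c0 := by positivity
        have n2 : N y a ≤ 1 + |R| / c0 := by
          rcases le_total (N y a) 1 with h | h
          · linarith
          · linarith [le_self_pow₀ h hm.ne']
        rw [← mul_assoc, Real.exp_neg, Real.exp_log e0]
        refine mul_le_mul ?_ (by linarith) (by linarith) (by positivity)
        rw [← div_eq_mul_inv, div_le_div_iff₀ e0 hc, mul_comm, mul_comm _ (H y a).det.re]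
        exact h4.trans (mul_le_mul_of_nonneg_left (pow_le_pow_left₀ n0 n2 k) e0.le) }
  have key : ∀ y, g (D.π y) ≠ 0 → ∃ δ > 0, ∃ A, J.Loc y δ A ∧
      ∀ z ∈ ball (D.π y) δ, ∀ z' ∈ ball (D.π y) δ, wc z' = wc z →
        (A z').det ^ a1 * g0 (D.sec y z) = (A z).det ^ a1 * g0 (D.sec y z') := fun y hy => by
    obtain ⟨δ, δ0, A, h1, h3, h4⟩ := par_a P hg Dd g0 h2 hm ha hc hD hg0 hor t2 d2 hy
    refine ⟨δ, δ0, A, ⟨h1, h3, fun z hz z' hz' e => ⟨?_, (h4 z hz z' hz' e).2.1⟩⟩,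
      fun z hz z' hz' e => (h4 z hz z' hz' e).2.2⟩
    simpa only [J, Matrix.mul_smul, Matrix.smul_mul] using (h4 z hz z' hz' e).1
  obtain ⟨δ, δ0, A, h1, h3⟩ := key y hy
  exact ⟨δ, δ0, A, h1.tgt, h1.an, fun z hz z' hz' e => ⟨fun a => Inp.par_ball P hg
    (fun y hy => let ⟨δ, δ0, A, h, _⟩ := key y hy; ⟨δ, δ0, A, h⟩) h1 hz hz' e a, h3 z hz z' hz' e⟩⟩

end Fb

end

end Pool.Agent.Lib.MP_5c318e_ag
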