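import Pool.Agent.Lib.MP_5c318e_ag.I.IsoF
import Pool.Agent.Lib.MP_5c318e_ag.Ku.KOff

/-! The local hermitian rank is bounded on the complement of a hypersurface. -/

set_option autoImplicit false

namespace Pool.Agent.Lib.MP_5c318e_ag.Fb

open Filter Topology Metric Matrix Set Complex
open scoped ComplexConjugate

/-- a pairing that factors through `κ` on samples factors through linear combinations -/
theorem fac {Z W ι κ : Type*} [Fintype ι] [Fintype κ] [DecidableEq κ] (φ : Z → ι → ℂ)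
    (γ : W → ι → ℂ) (φ' : Z → κ → ℂ) (γ' : W → κ → ℂ) (h : ∀ z w, φ z ⬝ᵥ γ w = φ' z ⬝ᵥ γ' w) :
    ∃ C : Matrix κ ι ℂ, ∀ z w, φ z ⬝ᵥ γ w = φ' z ⬝ᵥ C *ᵥ γ w := by
  let P : Submodule ℂ ((κ → ℂ) × (ι → ℂ)) :=
    { carrier := {p | ∀ w, p.2 ⬝ᵥ γ w = p.1 ⬝ᵥ γ' w}
      add_mem' := fun {a b} ha hb w => by
        simp only [Prod.snd_add, Prod.fst_add, add_dotProduct, ha w, hb w]
      zero_mem' := fun w => by simp
      smul_mem' := fun c a ha w => by
        simp only [Prod.smul_snd, Prod.smul_fst, smul_dotProduct, ha w] }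
  let pr : P →ₗ[ℂ] (κ → ℂ) := (LinearMap.fst ℂ _ _).comp P.subtype
  obtain ⟨s, hs⟩ := pr.rangeRestrict.exists_rightInverse_of_surjective pr.range_rangeRestrict
  obtain ⟨T, hT⟩ := LinearMap.exists_extend (((LinearMap.snd ℂ _ _).comp P.subtype).comp s)
  refine ⟨(LinearMap.toMatrix' T)ᵀ, fun z w => ?_⟩
  let u : LinearMap.range pr := ⟨φ' z, ⟨(φ' z, φ z), h z⟩, rfl⟩
  have e1 : (s u).1.1 = φ' z := congrArg Subtype.val (LinearMap.congr_fun hs u)
  have e2 : T (φ' z) = (s u).1.2 := LinearMap.congr_fun hT u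
  rw [dotProduct_mulVec, vecMul_transpose, LinearMap.toMatrix'_mulVec, e2, (s u).2 w, e1, h]

variable {E : Type} [NormedAddCommGroup E] [NormedSpace ℂ E]

/-- polarisation -/
theorem pol {ι : Type*} [Fintype ι] {f g : ι → E → ℂ} {a : E} {ρ : ℝ}
    (hf : ∀ i, AnalyticOnNhd ℂ (f i) (ball a (3 * ρ))) (hg : ∀ i, AnalyticOnNhd ℂ (g i) (ball a (3 * ρ)))
    (h : ∀ z ∈ ball a (3 * ρ), ∑ i, f i z * conj (g i z) = 0) {z w : E} (hz : z ∈ ball a ρ)
    (hw : w ∈ ball a ρ) : ∑ i, f i z * conj (g i w) = 0 := by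
  set m : E := (2⁻¹ : ℂ) • (z + w) with hm
  set v : E := (-I / 2 : ℂ) • (z - w) with hv
  rw [mem_ball_iff_norm] at hz hw
  have h1 : ‖m - a‖ < ρ := by
    have : m - a = (2⁻¹ : ℂ) • ((z - a) + (w - a)) := by
      rw [hm]; module
    rw [this, norm_smul]
    have := norm_add_le (z - a) (w - a)
    simp only [norm_inv, Complex.norm_ofNat]
    linarith
  have h2 : ‖v‖ < ρ := by
    have e : z - w = (z - a) - (w - a) := by abel
    have := norm_sub_le (z - a) (w - a)
    rw [hv, norm_smul, e]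
    simp only [norm_div, norm_neg, Complex.norm_I, Complex.norm_ofNat]
    linarith
  have hmem : ∀ s ∈ ball (0 : ℂ) 2, m + s • v ∈ ball a (3 * ρ) := fun s hs => by
    rw [mem_ball_zero_iff] at hs
    rw [mem_ball_iff_norm, add_sub_right_comm]
    have h3 := norm_add_le (m - a) (s • v)
    rw [norm_smul] at h3
    nlinarith [norm_nonneg v, norm_nonneg s]
  have hl : Differentiable ℂ fun s : ℂ => m + s • v := by fun_prop
  let ψ : ℂ → ℂ := fun s => ∑ i, f i (m + s • v) * conj (g i (m + conj s • v))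
  have hψ : DifferentiableOn ℂ ψ (ball 0 2) := fun s hs => by
    refine (DifferentiableAt.fun_sum fun i _ => DifferentiableAt.mul ?_ ?_).differentiableWithinAt
    · exact (hf i _ (hmem s hs)).differentiableAt.comp s (hl s)
    · have h3 : DifferentiableAt ℂ (fun t : ℂ => g i (m + t • v)) (conj s) :=
        (hg i _ (hmem _ (by simpa using hs))).differentiableAt.comp (conj s) (hl _)
      have h4 := h3.conj_conj
      rw [Complex.conj_conj] at h4
      exact h4
  have ht : Tendsto (fun t : ℝ => (t : ℂ)) (𝓝[≠] 0) (𝓝[≠] (0 : ℂ)) := by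
    refine tendsto_nhdsWithin_iff.2 ⟨?_, ?_⟩
    · exact (Complex.continuous_ofReal.tendsto' 0 0 rfl).mono_left nhdsWithin_le_nhds
    · filter_upwards [self_mem_nhdsWithin] with t ht
      simpa using ht
  have hfr : ∃ᶠ s in 𝓝[≠] (0 : ℂ), ψ s = 0 := by
    refine ht.frequently (Eventually.frequently ?_)
    filter_upwards [(ht.mono_right nhdsWithin_le_nhds).eventually (ball_mem_nhds _ two_pos)]
      with t h3
    simp only [ψ, Complex.conj_ofReal]
    exact h _ (hmem _ h3)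
  have h5 := (hψ.analyticOnNhd isOpen_ball).eqOn_zero_of_preconnected_of_frequently_eq_zero
    (convex_ball _ _).isPreconnected (mem_ball_self two_pos) hfr (x := I) (by simp)
  have e1 : m + I • v = z := by
    rw [hm, hv, smul_smul, show I * (-I / 2) = 2⁻¹ by
      linear_combination (-2⁻¹ : ℂ) * Complex.I_mul_I]
    module
  have e2 : m + conj I • v = w := by
    rw [hm, hv, smul_smul, Complex.conj_I, show -I * (-I / 2) = -2⁻¹ by
      linear_combination (2⁻¹ : ℂ) * Complex.I_mul_I]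
    module
  simpa only [ψ, e1, e2, Pi.zero_apply] using h5

/-- near `a0` a sum of products of analytic and conjugate analytic functions, indexed by `ι` -/
def HA (N : E → ℝ) (ι : Type) [Fintype ι] (a0 : E) : Prop :=
  ∃ ρ > 0, ∃ f g : ι → E → ℂ, (∀ i, AnalyticOnNhd ℂ (f i) (ball a0 ρ)) ∧
    (∀ i, AnalyticOnNhd ℂ (g i) (ball a0 ρ)) ∧ ∀ a ∈ ball a0 ρ, (N a : ℂ) = ∑ i, f i a * conj (g i a)

variable {N : E → ℝ} {ι κ : Type} [Fintype ι] [Fintype κ]

theorem HA.isOpen : IsOpen {a | HA N ι a} := by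
  refine isOpen_iff_mem_nhds.2 fun a ⟨ρ, hρ, f, g, hf, hg, h⟩ => ?_
  filter_upwards [ball_mem_nhds a hρ] with a' ha'
  obtain ⟨ε, hε, hs⟩ := Metric.isOpen_iff.1 isOpen_ball a' ha'
  exact ⟨ε, hε, f, g, fun i => (hf i).mono hs, fun i => (hg i).mono hs, fun x hx => h x (hs hx)⟩

theorem an_real {f g : ι → E → ℂ} {U : Set E} (hf : ∀ i, AnalyticOnNhd ℂ (f i) U)
    (hg : ∀ i, AnalyticOnNhd ℂ (g i) U) :
    letI := NormedSpace.restrictScalars ℝ ℂ E
    AnalyticOnNhd ℝ (fun a => ∑ i, f i a * conj (g i a)) U := by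
  letI := NormedSpace.restrictScalars ℝ ℂ E
  haveI : IsScalarTower ℝ ℂ E := ⟨fun x y z => mul_smul (x : ℂ) y z⟩
  exact fun x hx => Finset.analyticAt_fun_sum _ fun i _ => (hf i x hx).restrictScalars.mul
    ((Complex.conjCLE.toContinuousLinearMap.analyticAt _).comp (hg i x hx).restrictScalars)

theorem HA.closed {a1 : E} (h1 : HA N ι a1) (h2 : a1 ∈ closure {a | HA N κ a}) : HA N κ a1 := by
  classical
  obtain ⟨ρ, hρ, f, g, hf, hg, h⟩ := h1
  obtain ⟨a2, ha2, ρ', hρ', f', g', hf', hg', h'⟩ := mem_closure_iff_nhds.1 h2 _ (ball_mem_nhds a1 hρ)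
  obtain ⟨ε, hε, hs⟩ := Metric.isOpen_iff.1 (isOpen_ball.inter isOpen_ball) a2
    ⟨ha2, mem_ball_self hρ'⟩
  have s1 : ball a2 (3 * (ε / 3)) ⊆ ball a1 ρ := fun x hx => (hs (by simpa [mul_div_cancel₀] using hx)).1
  have s2 : ball a2 (3 * (ε / 3)) ⊆ ball a2 ρ' := fun x hx => (hs (by simpa [mul_div_cancel₀] using hx)).2
  have k : ∀ z w : ball a2 (ε / 3), (fun i => f i z) ⬝ᵥ (fun i => conj (g i w)) =
      (fun j => f' j z) ⬝ᵥ fun j => conj (g' j w) := fun z w => by
    have := pol (f := Sum.elim f fun j x => -f' j x) (g := Sum.elim g g') (a := a2) (ρ := ε / 3)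
      (fun i => i.casesOn (fun i => (hf i).mono s1) fun j => ((hf' j).mono s2).neg)
      (fun i => i.casesOn (fun i => (hg i).mono s1) fun j => (hg' j).mono s2)
      (fun x hx => by
        simp [Fintype.sum_sum_type, ← h x (s1 hx), ← h' x (s2 hx)]) z.2 w.2
    simpa [Fintype.sum_sum_type, dotProduct, add_neg_eq_zero] using this
  obtain ⟨C, hC⟩ := fac _ _ _ _ k
  obtain ⟨C', hC'⟩ := fac (fun (w : ball a2 (ε / 3)) i => conj (g i w))
    (fun (z : ball a2 (ε / 3)) i => f i z) (fun w => C *ᵥ fun i => conj (g i w))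
    (fun z j => f' j z) fun w z => by rw [dotProduct_comm, hC, dotProduct_comm]
  have aF : ∀ j, AnalyticOnNhd ℂ (fun x => ∑ i, C' j i * f i x) (ball a1 ρ) := fun j x hx =>
    Finset.analyticAt_fun_sum _ fun i _ => analyticAt_const.mul (hf i x hx)
  have aG : ∀ j, AnalyticOnNhd ℂ (fun x => ∑ i, conj (C j i) * g i x) (ball a1 ρ) := fun j x hx =>
    Finset.analyticAt_fun_sum _ fun i _ => analyticAt_const.mul (hg i x hx)
  refine ⟨ρ, hρ, _, _, aF, aG, fun a ha => (h a ha).trans ?_⟩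
  letI := NormedSpace.restrictScalars ℝ ℂ E
  refine (an_real hf hg).eqOn_of_preconnected_of_eventuallyEq (an_real aF aG)
    (convex_ball _ _).isPreconnected ha2 ?_ ha
  filter_upwards [ball_mem_nhds a2 (by positivity : 0 < ε / 3)] with x hx
  have := hC' ⟨x, hx⟩ ⟨x, hx⟩
  simpa [dotProduct, mulVec, mul_comm] using this

/-- the hermitian rank is uniform off a hypersurface -/
theorem hermRank_of {Del : E → ℂ} (hD : AnalyticOnNhd ℂ Del univ)
    (h : ∀ a, Del a ≠ 0 → ∃ (ι : Type) (_ : Fintype ι), HA N ι a) : ∃ b, Iso.HermRank N Del b := by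
  by_cases h0 : ∃ a, Del a ≠ 0
  · obtain ⟨a0, h0⟩ := h0
    obtain ⟨κ, _, hκ⟩ := h a0 h0
    have := (KOff.conv isOpen_univ convex_univ hD).subset_of_closure_inter_subset
      (HA.isOpen (N := N) (ι := κ)) ⟨a0, ⟨trivial, h0⟩, hκ⟩ fun a ha => by
        obtain ⟨ι, _, hι⟩ := h a ha.2.2
        exact hι.closed ha.1
    refine ⟨Fintype.card κ, fun a ha => ?_⟩
    obtain ⟨ρ, hρ, f, g, hf, hg, e⟩ := this ⟨trivial, ha⟩
    let q := (Fintype.equivFin κ).symm
    exact ⟨_, ball_mem_nhds a hρ, fun i => f (q i), fun i => g (q i),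
      fun i => (hf _).differentiableOn, fun i => (hg _).differentiableOn,
      fun x hx => (e x hx).trans (q.sum_comp fun i => f i x * conj (g i x)).symm⟩
  · exact ⟨0, fun a ha => (h0 ⟨a, ha⟩).elim⟩

end Pool.Agent.Lib.MP_5c318e_ag.Fb
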