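import Pool.Agent.Lib.MP_5c318e_ag.Fb.HermU
import Pool.Agent.Lib.MP_5c318e_ag.Z.KDefs
import Pool.Agent.Lib.MP_5c318e_ag.D.Bas
import Pool.Agent.Lib.MP_5c318e_ag.S.RArea
import Pool.Agent.Lib.MP_5c318e_ag.RD.RExt

/-! The quasi-norm of a set-up: strict subadditivity, the cone form, finiteness of isometries. -/

set_option autoImplicit false
set_option linter.unusedSectionVars false

namespace Pool.Agent.Lib.MP_5c318e_ag

open MeasureTheory Set Filter Topology Matrix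
open scoped ENNReal ComplexConjugate ComplexOrder

variable {δ ν K M : Type} [Fintype δ] [DecidableEq δ] [Fintype ν] [DecidableEq ν]
  [Field K] [Algebra ℂ K] [Field M] [Algebra ℂ M] [Algebra K M]

section top
variable {E s n : Type} [NormedAddCommGroup E] [NormedSpace ℂ E] [Fintype s] [DecidableEq s]
  [Fintype n] [DecidableEq n] {κ : ℝ} {G : E → Matrix s s ℂ} {x0 : E}

theorem TopAt.herm (h : TopAt n κ G x0) : (G x0).IsHermitian := by
  obtain ⟨U, h, Y, Q, X, p, h0, hG, H⟩ := h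
  rw [(H x0 h0).2.2.2.1]
  exact isHermitian_conjTranspose_mul_mul _ (hG.pos x0 h0).isHermitian

/-- the form is locally a sum of products of analytic and conjugate analytic functions -/
theorem TopAt.ha (h : TopAt n κ G x0) {F : Type} [NormedAddCommGroup F] [NormedSpace ℂ F]
    {φ : F → E} {v : F → s → ℂ} {a0 : F} (hφ : ∀ a, AnalyticAt ℂ φ a) (h0 : φ a0 = x0)
    (hv : ∀ a i, AnalyticAt ℂ (fun a => v a i) a) {N : F → ℝ}
    (hN : ∀ᶠ a in 𝓝 a0, N a = (star (v a) ⬝ᵥ G (φ a) *ᵥ v a).re) : Fb.HA N n a0 := by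
  obtain ⟨U, h, Y, Q, X, p, h1, hG, H⟩ := h
  obtain ⟨ρ, hρ, hb⟩ := Metric.eventually_nhds_iff_ball.1
    (hN.and ((hφ a0).continuousAt.preimage_mem_nhds (hG.op.mem_nhds (h0 ▸ h1))))
  have an : ∀ i, AnalyticOnNhd ℂ (fun a => (X (φ a) *ᵥ v a) i) (Metric.ball a0 ρ) :=
    fun i a ha => Finset.analyticAt_fun_sum _ fun j _ =>
      (((H _ (hb a ha).2).1 i j).comp (hφ a)).mul (hv a j)
  refine ⟨ρ, hρ, fun i a => (Q *ᵥ (X (φ a) *ᵥ v a)) i, fun i a => (X (φ a) *ᵥ v a) i,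
    fun i a ha => Finset.analyticAt_fun_sum _ fun j _ => analyticAt_const.mul (an j a ha), an,
    fun a ha => ?_⟩
  obtain ⟨-, -, e1, e2, -⟩ := H _ (hb a ha).2
  have e3 : star (v a) ⬝ᵥ G (φ a) *ᵥ v a =
      star (X (φ a) *ᵥ v a) ⬝ᵥ h (φ a) *ᵥ (X (φ a) *ᵥ v a) := by
    rw [e2, star_mulVec, ← dotProduct_mulVec, mulVec_mulVec, mulVec_mulVec]
  have e4 := (hG.pos _ (hb a ha).2).posSemidef.dotProduct_mulVec_nonneg (X (φ a) *ᵥ v a)
  rw [(hb a ha).1, e3, (Complex.re_add_im _).symm.trans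
    (by rw [← (Complex.nonneg_iff.1 e4).2]; simp : _ = (((star (X (φ a) *ᵥ v a) ⬝ᵥ
      h (φ a) *ᵥ (X (φ a) *ᵥ v a)).re : ℝ) : ℂ)) |>.symm, mulVec_mulVec, e1, ← mulVec_mulVec,
    dotProduct_comm]
  rfl

end top

namespace Dat

variable (d : Dat δ K ν M)

theorem nB_fin (b : Pt d.B.O) : N.nB (d.μ b) (d.f b) (2 / d.m) ≠ ⊤ :=
  let ⟨_, _, h⟩ := d.up; ne_top_of_le_ne_top ENNReal.ofReal_ne_top (h b)

theorem nN_ne (b : Pt d.B.O) (a : Fin d.r → ℂ) (ha : a ≠ 0) :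
    N.nN (d.μ b) (d.f b) (2 / d.m) a ≠ 0 := fun h0 => by
  obtain ⟨u, -, h⟩ := d.low
  have := h b a
  rw [h0, mul_zero, nonpos_iff_eq_zero, ENNReal.rpow_eq_zero_iff_of_pos d.bas_p] at this
  exact ha (by simpa using this)

theorem nN_eq (b : Pt d.B.O) (a : Fin d.r → ℂ) :
    N.nN (d.μ b) (d.f b) (2 / d.m) a = ENNReal.ofReal (d.Nn b a) :=
  (ENNReal.ofReal_toReal (N.nN_ne_top d.bas_p.le (d.nB_fin b) a)).symm

theorem p_lt : (2 / d.m : ℝ) < 1 := by
  have : (3 : ℝ) ≤ d.m := by exact_mod_cast d.hm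
  rw [div_lt_one (by linarith)]
  linarith

/-- the quasi-norm is homogeneous and strictly subadditive -/
theorem pn (b : Pt d.B.O) : Iso.PN (d.Nn b) (2 / d.m) := by
  have := (d.T.fib b).openPos
  have cf : Continuous (d.f b) :=
    continuous_pi fun i => (Pt.continuous_apply (d.τ i)).comp continuous_subtype_val
  have cs : ∀ a : Fin d.r → ℂ, Continuous fun x => a ⬝ᵥ d.f b x := fun a =>
    continuous_const.dotProduct cf
  have cp : ∀ a : Fin d.r → ℂ, Continuous fun x => ‖a ⬝ᵥ d.f b x‖ ^ (2 / d.m : ℝ) := fun a =>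
    (cs a).norm.rpow_const fun _ => Or.inr d.bas_p.le
  have e : ∀ a : Fin d.r → ℂ, ∫⁻ x, ENNReal.ofReal (‖a ⬝ᵥ d.f b x‖ ^ (2 / d.m : ℝ)) ∂d.μ b =
      N.nN (d.μ b) (d.f b) (2 / d.m) a := fun a => lintegral_congr fun x => by
    rw [← ENNReal.ofReal_rpow_of_nonneg (norm_nonneg _) d.bas_p.le, ofReal_norm]
  let s : (Fin d.r → ℂ) →ₗ[ℂ] (d.T.Fib b → ℂ) :=
    { toFun := fun a x => a ⬝ᵥ d.f b x
      map_add' := fun a a' => funext fun x => add_dotProduct _ _ _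
      map_smul' := fun c a => funext fun x => smul_dotProduct _ _ _ }
  have ne : ∀ a : Fin d.r → ℂ, a ≠ 0 → ∃ x, a ⬝ᵥ d.f b x ≠ 0 := fun a ha => by
    by_contra! h
    exact d.nN_ne b a ha (by simp [N.nN, h, ENNReal.zero_rpow_of_pos d.bas_p])
  have := Iso.PN.of_integral_open (μ := d.μ b) d.bas_p d.p_lt s cs (fun a =>
    ⟨(cp a).measurable.aestronglyMeasurable, (hasFiniteIntegral_iff_ofReal
      (.of_forall fun x => by positivity)).2 ((e a).trans_lt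
        (N.nN_ne_top d.bas_p.le (d.nB_fin b) a).lt_top)⟩) fun a a' ha ha' => by
      by_contra! h
      exact ha' (d.indF b _ (isOpen_ne_fun (cs a) continuous_const) (ne a ha) a' h)
  convert this using 2 with a
  exact ((integral_eq_lintegral_of_nonneg_ae (.of_forall fun x => by positivity)
    (cp a).measurable.aestronglyMeasurable).trans (congrArg _ (e a))).symm

theorem Nn_cont (b : Pt d.B.O) : Continuous (d.Nn b) := (d.pn b).continuous

theorem Nn_nonneg (b : Pt d.B.O) (a : Fin d.r → ℂ) : 0 ≤ d.Nn b a := ENNReal.toReal_nonneg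

/-- the value of a polynomial on the cone -/
abbrev dl (Δ : MvPolynomial (Fin d.r) d.B.O) (b : Pt d.B.O) (a : Fin d.r → ℂ) : ℂ :=
  MvPolynomial.eval₂ (b.hom : d.B.O →+* ℂ) a Δ

theorem dl_ae {Δ : MvPolynomial (Fin d.r) d.B.O} {b : Pt d.B.O}
    (h : MvPolynomial.map (b.hom : d.B.O →+* ℂ) Δ ≠ 0) : ∀ᵐ a, d.dl Δ b a ≠ 0 :=
  (RArea.null_poly h).mono fun a ha => by rwa [dl, MvPolynomial.eval₂_eq_eval_map]

theorem dl_ana (Δ : MvPolynomial (Fin d.r) d.B.O) (b : Pt d.B.O) (a : Fin d.r → ℂ) :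
    AnalyticAt ℂ (fun p : (δ → ℂ) × (Fin d.r → ℂ) => d.dl Δ (d.B.D.sec b p.1) p.2)
      (d.B.D.π b, a) := by
  induction Δ using MvPolynomial.induction_on with
  | C c =>
    simp only [dl, MvPolynomial.eval₂_C]
    exact AnalyticAt.comp (f := Prod.fst) (x := (d.B.D.π b, a)) ((d.B.hol c).ana b) analyticAt_fst
  | add p q hp hq => simpa only [dl, MvPolynomial.eval₂_add] using hp.fun_add hq
  | mul_X p i hp =>
    simp only [dl, MvPolynomial.eval₂_mul, MvPolynomial.eval₂_X]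
    exact hp.fun_mul (((ContinuousLinearMap.proj (R := ℂ) (φ := fun _ : Fin d.r => ℂ)
      i).analyticAt _).comp analyticAt_snd)

theorem h3_ne {b : Pt d.B.O} {a : Fin d.r → ℂ}
    (h : ∀ u, N.h3 (d.μ b) (d.f b) (2 / d.m) a u ≠ ⊤) : a ≠ 0 := by
  rintro rfl
  have h1 := ae_lt_top ((N.measurable_h3_integrand (p := 2 / d.m) (d.bas_mf b) 1).comp
    (measurable_prodMk_left (x := 0))) (h 1)
  refine d.nN_ne b 1 (fun e => one_ne_zero (congrFun e ⟨0, d.hr⟩)) ?_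
  rw [N.nN, lintegral_congr_ae (g := 0), Pi.zero_def, lintegral_zero]
  filter_upwards [h1] with x hx
  have h2 : -(2 - (2 / d.m : ℝ)) < 0 := by linarith [d.p_lt]
  by_contra h3
  simp only [Function.comp, zero_dotProduct, enorm_zero, ENNReal.zero_rpow_of_neg h2] at hx
  rw [ENNReal.mul_top (pow_ne_zero _ fun e => h3 (by
    rw [e, ENNReal.zero_rpow_of_pos d.bas_p]; rfl))] at hx
  exact lt_irrefl _ hx

theorem h3_val {b : Pt d.B.O} {a : Fin d.r → ℂ} {G : Matrix (Fin d.r) (Fin d.r) ℂ}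
    (h : ∀ u, ENNReal.ofReal (star u ⬝ᵥ G *ᵥ u).re = N.h3 (d.μ b) (d.f b) (2 / d.m) a u) :
    d.Nn b a = (star a ⬝ᵥ G *ᵥ a).re := by
  have ha := d.h3_ne fun u => h u ▸ ENNReal.ofReal_ne_top
  have h1 := (h a).trans (N.h3_self d.bas_p a)
  rw [Nn, ← h1, ENNReal.toReal_ofReal
    (ENNReal.ofReal_pos.1 (pos_iff_ne_zero.2 (h1 ▸ d.nN_ne b a ha))).le]

variable [IsScalarTower ℂ K M]

/-- the lower bound for the determinant of the cone form -/
theorem h3_det : ∃ (c0 : ℝ) (k : ℕ), 0 < c0 ∧ 0 < k ∧ ∀ (b : Pt d.B.O) (a : Fin d.r → ℂ)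
    (G : Matrix (Fin d.r) (Fin d.r) ℂ), G.IsHermitian →
    (∀ u, ENNReal.ofReal (star u ⬝ᵥ G *ᵥ u).re = N.h3 (d.μ b) (d.f b) (2 / d.m) a u) →
    c0 * d.Dd b ^ d.m ≤ G.det.re * d.Nn b a ^ k := by
  have hm : 1 ≤ d.m := by have := d.hm; omega
  set c : ℝ := (N.cD d.r (2 / d.m)).toReal ^ d.m * d.r ^ d.r with hc
  have c0 : 0 ≤ c := by positivity
  refine ⟨(c + 1)⁻¹, (d.m - 1) * d.r, by positivity,
    Nat.mul_pos (by have := d.hm; omega) d.hr, fun b a G hG h => ?_⟩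
  have := d.bas_sf b
  have ha := d.h3_ne fun u => h u ▸ ENNReal.ofReal_ne_top
  have h1 := N.nD_le_det_h3 (d.bas_mf b) d.bas_p (by linarith [d.p_lt]) (d.nB_fin b) (d.nN_ne b)
    ha hG fun u => (h u).ge
  have e : (2 : ℝ) / (2 / d.m) = d.m := by
    have : (0 : ℝ) < d.m := by exact_mod_cast hm
    field_simp
  have n0 := d.Nn_nonneg b a
  have D0 := d.Dd_pos b
  rw [e, show (d.m : ℝ) - 1 = (d.m - 1 : ℕ) by rw [Nat.cast_sub hm, Nat.cast_one],
    ENNReal.rpow_natCast, ENNReal.rpow_natCast, ENNReal.rpow_natCast, d.nD_eq, d.nN_eq,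
    ← ENNReal.ofReal_toReal (N.cD_ne_top (r := d.r) d.bas_p.le), ← ENNReal.ofReal_natCast,
    ← ENNReal.ofReal_pow D0.le, ← ENNReal.ofReal_pow n0, ← ENNReal.ofReal_pow ENNReal.toReal_nonneg,
    ← ENNReal.ofReal_mul (by positivity), ← ENNReal.ofReal_pow (by positivity),
    ← ENNReal.ofReal_mul (by positivity), ← ENNReal.ofReal_mul (by positivity),
    ENNReal.ofReal_le_ofReal_iff'] at h1
  have h2 := h1.resolve_right (not_le.2 (by positivity))
  rw [mul_pow, ← pow_mul, ← mul_assoc, ← hc, mul_assoc, mul_comm _ G.det.re] at h2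
  have h3 : 0 ≤ G.det.re * d.Nn b a ^ ((d.m - 1) * d.r) := by
    by_contra! h4
    nlinarith [pow_pos D0 d.m]
  rw [inv_mul_le_iff₀ (by positivity)]
  linarith

/-- the isometries with a torsion determinant form a finite set -/
theorem T3On.iso {d : Dat δ K ν M} {e : d.B.O} (h3 : d.T3On e) {b : Pt d.B.O} (hb : b e ≠ 0)
    (n : ℕ) (hn : n ≠ 0) : {A : Matrix (Fin d.r) (Fin d.r) ℂ |
      (∀ a, d.Nn b (A *ᵥ a) = d.Nn b a) ∧ A.det ^ n = 1}.Finite := by
  obtain ⟨Δ, H, h⟩ := h3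
  obtain ⟨h0, h⟩ := h b hb
  have hφ : ∀ a, AnalyticAt ℂ (fun a : Fin d.r → ℂ => (d.B.D.π b, a)) a := fun a =>
    analyticAt_const.prod analyticAt_id
  have an : AnalyticOnNhd ℂ (d.dl Δ b) univ := fun a _ => by
    simpa only [Function.comp_def, RD.sec_self] using (d.dl_ana Δ b a).comp (hφ a)
  obtain ⟨k, hk⟩ := Fb.hermRank_of (N := d.Nn b) an fun a ha => by
    obtain ⟨⟨n, κ, t⟩, -⟩ := h a ha
    refine ⟨Fin n, inferInstance, t.ha hφ rfl (v := id) (fun a i => (ContinuousLinearMap.proj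
      (R := ℂ) (φ := fun _ : Fin d.r => ℂ) i).analyticAt _) ?_⟩
    filter_upwards [(an a trivial).continuousAt.eventually_ne ha] with a' ha'
    simpa only [RD.sec_self, id] using d.h3_val (h a' ha').2
  exact Iso.finite_isom_matrix (d.pn b) (fun a => (an a trivial).differentiableAt)
    (d.dl_ae h0).exists hk hn

end Dat

end Pool.Agent.Lib.MP_5c318e_ag
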