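import Pool.Agent.Lib.MP_5c318e_ag.Fb.Frames
import Pool.Agent.Lib.MP_5c318e_ag.Fb.ParI

/-! Parallel frames along the fibres of the first coordinates. -/

set_option autoImplicit false

namespace Pool.Agent.Lib.MP_5c318e_ag

open MeasureTheory Set Filter Topology Matrix Metric

variable {ν K M : Type} [Fintype ν] [DecidableEq ν]
  [Field K] [Algebra ℂ K] [Field M] [Algebra ℂ M] [Algebra K M] [IsScalarTower ℂ K M]
  {ε γ : Type} [Fintype ε] [DecidableEq ε] [Fintype γ] [DecidableEq γ]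

theorem Dat.par (d : Dat (ε ⊕ γ) K ν M) {e2 e3 : d.B.O} (h2 : d.T2On e2) (h3 : d.T3On e3)
    (u2 : IsUnit e2) (u3 : IsUnit e3) {g : d.B.O} (hg : IsUnit g)
    {a1 : ℕ} (ha : 0 < a1) (hf : d.Hor fun b => ‖b g‖ ^ 2 * d.Dd b ^ (d.m * a1)) :
    d.ParData g a1 := by
  have un : ∀ {e : d.B.O}, IsUnit e → ∀ b : Pt d.B.O, b e ≠ 0 := fun u b => (u.map b).ne_zero
  refine ⟨fun b0 => ?_, fun b n hn => h3.iso (un u3 b) n hn⟩
  obtain ⟨s, c, H2, c0, h2⟩ := h2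
  obtain ⟨Δ, H3, h3⟩ := h3
  obtain ⟨c', k, c0', k0, hk⟩ := d.h3_det
  have D0 := d.Dd_pos
  obtain ⟨δ, δ0, A, tg, an, cst⟩ := Fb.par_frames (G.prp_of_fini d.B d.T.finB) (G.polyG_mv 1)
    d.Nn d.Dd (fun b => b g) H2 H3 (d.dl Δ) (m := d.m) (a1 := a1) (k := k) (s := s)
    (by have := d.hm; omega) ha k0 (lt_min c0 c0') (fun y _ => D0 y)
    (fun y _ => ⟨un hg y, d.B.hol g y⟩) (fun y _ => hf y)
    (fun y _ => let ⟨_, _, t⟩ := (h2 y (un u2 y)).1; t.flt)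
    (fun y _ a => (mul_le_mul_of_nonneg_right (min_le_left _ _) (mul_nonneg
      (pow_nonneg (d.Nn_nonneg y a) _) (Real.rpow_nonneg (D0 y).le _))).trans
      ((h2 y (un u2 y)).2.1 a))
    (fun y _ => (mul_le_mul_of_nonneg_right (min_le_left _ _)
      (Real.rpow_nonneg (D0 y).le _)).trans (by simpa using (h2 y (un u2 y)).2.2))
    (fun y _ => ⟨d.Nn_nonneg y, d.Nn_cont y⟩)
    (fun y _ => ⟨d.dl_ae (h3 y (un u3 y)).1, d.dl_ana Δ y⟩)
    (fun y _ a h => by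
      obtain ⟨⟨_, _, t⟩, e⟩ := (h3 y (un u3 y)).2 a h
      exact ⟨⟨_, _, t⟩, d.h3_val e, (mul_le_mul_of_nonneg_right (min_le_right _ _)
        (pow_nonneg (D0 y).le _)).trans (hk y a _ (by simpa only [RD.sec_self] using t.herm) e)⟩)
    (y := b0) (by simp)
  refine ⟨(d.B.D.ch b0).source ∩ d.B.D.π ⁻¹' ball (d.B.D.π b0) δ, fun b => A (d.B.D.π b),
    (d.B.D.ch b0).open_source.inter (isOpen_ball.preimage d.B.D.cont_π),
    ⟨d.B.D.mem_src b0, mem_ball_self δ0⟩, fun b hb => ⟨(an _ hb.2).2.2, fun i j => ?_⟩,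
    fun b hb b' hb' e => ?_⟩
  · exact ((an _ hb.2).2.1 i j).differentiableAt.congr_of_eventuallyEq
      ((d.B.D.π_sec_ev b).mono fun z hz => by simp only [hz])
  · have := cst _ hb'.2 _ hb.2 e
    rwa [RD.sec_π hb.1, RD.sec_π hb'.1] at this

end Pool.Agent.Lib.MP_5c318e_ag
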