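import Pool.Agent.Lib.MP_5c318e_ag.Fb.Bal
import Pool.Agent.Lib.MP_5c318e_ag.Av.Avg

/-! The norm is constant along the slices in frames that are parallel for the hermitian form. -/

set_option autoImplicit false
set_option linter.unusedSectionVars false

namespace Pool.Agent.Lib.MP_5c318e_ag.Fb

open Complex Filter Topology Matrix MeasureTheory Metric ProbabilityTheory
open Pool.Agent.Lib.MP_5c318e_ag.V Pool.Agent.Lib.MP_5c318e_ag.Fl Pool.Agent.Lib.MP_5c318e_ag.G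
open Pool.Agent.Lib.MP_5c318e_ag.Av
open scoped ContDiff ComplexConjugate ComplexOrder ENNReal

noncomputable section

variable {κ γ r S : Type} [Fintype κ] [DecidableEq κ] [Fintype γ] [DecidableEq γ]
  [Fintype r] [DecidableEq r] [TopologicalSpace S] [MeasurableSpace S]

/-- the data of the averaging argument -/
structure Inp (D : RD (κ ⊕ γ) S) (g : (κ ⊕ γ → ℂ) → ℂ) (r : Type) [Fintype r] [DecidableEq r] where
  N : S → (r → ℂ) → ℝ
  L : S → (r → ℂ) → ℝ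
  Del : S → (r → ℂ) → ℂ
  E : S → ℝ
  h : S → Matrix r r ℂ
  pos : ∀ y, g (D.π y) ≠ 0 → 0 < E y
  pd : ∀ y, g (D.π y) ≠ 0 → (h y).PosDef
  cont : ∀ y, g (D.π y) ≠ 0 → Continuous (N y)
  ae : ∀ y, g (D.π y) ≠ 0 → ∀ᵐ a, Del y a ≠ 0
  ana : ∀ y, g (D.π y) ≠ 0 → ∀ a, AnalyticAt ℂ
    (fun p : (κ ⊕ γ → ℂ) × (r → ℂ) => Del (D.sec y p.1) p.2) (D.π y, a)
  sub : ∀ y, g (D.π y) ≠ 0 → ∀ a, Del y a ≠ 0 →
    SubAt (fun p : (κ ⊕ γ → ℂ) × (r → ℂ) => L (D.sec y p.1) p.2) (fun p => N (D.sec y p.1) p.2)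
      (D.π y, a)
  bd : ∀ R, ∃ C, ∀ y, g (D.π y) ≠ 0 → ∀ a ∈ Bl (h y) R, Del y a ≠ 0 →
    E y * (Real.exp (-L y a) * (1 + N y a)) ≤ C

namespace Inp

variable {D : RD (κ ⊕ γ) S} {g : (κ ⊕ γ → ℂ) → ℂ} (J : Inp D g r)

/-- a frame on a ball that is parallel for `h` and `E` -/
structure Loc (y : S) (δ : ℝ) (A : (κ ⊕ γ → ℂ) → Matrix r r ℂ) : Prop where
  tgt : ball (D.π y) δ ⊆ (D.ch y).target
  an : ∀ z ∈ ball (D.π y) δ, g z ≠ 0 ∧ (∀ i j, AnalyticAt ℂ (fun z => A z i j) z) ∧ (A z).det ≠ 0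
  cst : ∀ z ∈ ball (D.π y) δ, ∀ z' ∈ ball (D.π y) δ, wc z' = wc z →
    (A z')ᴴ * J.h (D.sec y z') * A z' = (A z)ᴴ * J.h (D.sec y z) * A z ∧
      ‖(A z').det‖ ^ 2 * J.E (D.sec y z') = ‖(A z).det‖ ^ 2 * J.E (D.sec y z)

open Classical in
/-- the function that is averaged -/
def F (y : S) (b : r → ℂ) : ℝ :=
  if J.Del y b = 0 then 0 else J.E y * (Real.exp (-J.L y b) * (1 + J.N y b))

/-- the average -/
def u (R : ℝ) (y : S) : ℝ := ∫ b, J.F y b ∂volume[|Bl (J.h y) R]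

theorem F_bd (R : ℝ) : ∃ C, ∀ y, g (D.π y) ≠ 0 → ∀ a ∈ Bl (J.h y) R, 0 ≤ J.F y a ∧ J.F y a ≤ C := by
  obtain ⟨C, hC⟩ := J.bd R
  refine ⟨max C 0, fun y hy a ha => ?_⟩
  rw [F]
  split_ifs with h0
  · exact ⟨le_rfl, le_max_right _ _⟩
  · have p := (J.sub y hy a h0).pos
    simp only [D.sec_self] at p
    have := J.pos y hy
    exact ⟨by positivity, le_max_of_le_left (hC y hy a ha h0)⟩

theorem u_bd (R : ℝ) : ∃ B, ∀ y, g (D.π y) ≠ 0 → J.u R y ≤ B := by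
  obtain ⟨C, hC⟩ := J.F_bd R
  refine ⟨max C 0, fun y hy => (le_abs_self _).trans ?_⟩
  refine (norm_integral_le_of_norm_le_const (f := J.F y) (C := max C 0)
    ((ae_cond_mem (isOpen_Bl (J.h y) R).measurableSet).mono fun a ha => ?_)).trans
    (mul_le_of_le_one_right (le_max_right _ _) measureReal_le_one)
  rw [Real.norm_of_nonneg (hC y hy a ha).1]
  exact le_max_of_le_left (hC y hy a ha).2

variable {J} {y : S} {δ : ℝ} {A : (κ ⊕ γ → ℂ) → Matrix r r ℂ} {z ξ : κ ⊕ γ → ℂ} {a : r → ℂ}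

namespace Loc

theorem off (H : J.Loc y δ A) (hz : z ∈ ball (D.π y) δ) : g (D.π (D.sec y z)) ≠ 0 := by
  rw [RD.π_sec (H.tgt hz)]
  exact (H.an z hz).1

theorem lift (H : J.Loc y δ A) (hz : z ∈ ball (D.π y) δ) (a : r → ℂ) :
    AnalyticAt ℂ (fun p : (κ ⊕ γ → ℂ) × (r → ℂ) => (p.1, A p.1 *ᵥ p.2)) (z, a) := by
  refine analyticAt_fst.prod (analyticAt_pi_iff.2 fun i => ?_)
  simp only [mulVec, dotProduct]
  exact Finset.analyticAt_fun_sum _ fun j _ =>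
    AnalyticAt.mul (AnalyticAt.comp (g := fun z => A z i j) (f := Prod.fst) (x := (z, a))
      ((H.an z hz).2.1 i j) analyticAt_fst) (analyticAt_pi_iff.1 analyticAt_snd j)

theorem germ (H : J.Loc y δ A) (hz : z ∈ ball (D.π y) δ) (b : r → ℂ) :
    ∀ᶠ p : (κ ⊕ γ → ℂ) × (r → ℂ) in 𝓝 (z, b), D.sec y p.1 = D.sec (D.sec y z) p.1 :=
  (continuousAt_fst (p := (z, b))).tendsto.eventually (RD.germ (H.tgt hz))

theorem del (H : J.Loc y δ A) (hz : z ∈ ball (D.π y) δ) (a : r → ℂ) : AnalyticAt ℂ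
    (fun p : (κ ⊕ γ → ℂ) × (r → ℂ) => J.Del (D.sec y p.1) (A p.1 *ᵥ p.2)) (z, a) := by
  have h1 := J.ana _ (H.off hz) (A z *ᵥ a)
  rw [RD.π_sec (H.tgt hz)] at h1
  exact AnalyticAt.comp (g := fun p : (κ ⊕ γ → ℂ) × (r → ℂ) => J.Del (D.sec y p.1) p.2)
    (f := fun p : (κ ⊕ γ → ℂ) × (r → ℂ) => (p.1, A p.1 *ᵥ p.2)) (x := (z, a))
    (h1.congr ((H.germ hz _).mono fun p hp => by simp only [hp])) (H.lift hz a)

theorem sub (H : J.Loc y δ A) (hz : z ∈ ball (D.π y) δ) (h0 : J.Del (D.sec y z) (A z *ᵥ a) ≠ 0) :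
    SubAt (fun p : (κ ⊕ γ → ℂ) × (r → ℂ) => J.L (D.sec y p.1) (A p.1 *ᵥ p.2))
      (fun p => J.N (D.sec y p.1) (A p.1 *ᵥ p.2)) (z, a) := by
  have h1 := J.sub _ (H.off hz) _ h0
  rw [RD.π_sec (H.tgt hz)] at h1
  exact SubAt.comp (L := fun p : (κ ⊕ γ → ℂ) × (r → ℂ) => J.L (D.sec y p.1) p.2)
    (N := fun p => J.N (D.sec y p.1) p.2)
    (g := fun p : (κ ⊕ γ → ℂ) × (r → ℂ) => (p.1, A p.1 *ᵥ p.2))
    (h1.congr ((H.germ hz _).mono fun p hp => by simp only [hp])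
      ((H.germ hz _).mono fun p hp => by simp only [hp])) (H.lift hz a).contDiffAt

theorem wc_line (hξ : wc ξ = 0) (z : κ ⊕ γ → ℂ) (t : ℂ) : wc (z + t • ξ) = wc z :=
  funext fun i => by
    have := congrFun hξ i
    simp only [wc, Pi.zero_apply] at this
    simp [wc, this]

theorem harm (H : J.Loc y δ A) (hz : z ∈ ball (D.π y) δ) (hξ : wc ξ = 0) : ∃ e : ℂ → ℝ,
    ∀ t : ℂ, z + t • ξ ∈ ball (D.π y) δ → ContDiffAt ℝ ∞ e t ∧ (∀ η, lev e t η = 0) ∧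
      J.E (D.sec y (z + t • ξ)) = Real.exp (-e t) := by
  refine ⟨fun t => 2 * Real.log ‖(A (z + t • ξ)).det‖ -
    Real.log (‖(A z).det‖ ^ 2 * J.E (D.sec y z)), fun t ht => ?_⟩
  have d : AnalyticAt ℂ (fun t : ℂ => (A (z + t • ξ)).det) t := by
    simp only [Matrix.det_apply']
    exact Finset.analyticAt_fun_sum _ fun σ _ => analyticAt_const.mul
      (Finset.analyticAt_fun_prod _ fun i _ => ((H.an _ ht).2.1 _ _).comp
        (f := fun t : ℂ => z + t • ξ) (by fun_prop))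
  have d0 := (H.an _ ht).2.2
  have n0 := norm_pos_iff.2 d0
  have s : ContDiffAt ℝ ∞ (fun t : ℂ => Real.log ‖(A (z + t • ξ)).det‖) t :=
    (((d.contDiffAt (n := ∞)).restrict_scalars ℝ).norm ℝ d0).log n0.ne'
  refine ⟨(contDiffAt_const.mul s).sub contDiffAt_const, fun η => ?_, ?_⟩
  · rw [lev_sub (contDiffAt_const.mul (cd2 s)) contDiffAt_const, lev_const_mul _ (cd2 s),
      lev_log_norm_holo d.contDiffAt d0, lev_const]
    ring
  · rw [← (H.cst z hz _ ht (wc_line hξ z t)).2, Real.log_mul (pow_pos n0 2).ne'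
      (J.pos _ (H.off ht)).ne', Real.log_pow]
    push_cast
    rw [neg_sub, add_sub_cancel_left, Real.exp_log (J.pos _ (H.off ht))]

theorem line (H : J.Loc y δ A) {e : ℂ → ℝ}
    (he : ∀ t : ℂ, z + t • ξ ∈ ball (D.π y) δ → ContDiffAt ℝ ∞ e t ∧ (∀ η, lev e t η = 0) ∧
      J.E (D.sec y (z + t • ξ)) = Real.exp (-e t)) {t : ℂ} (ht : z + t • ξ ∈ ball (D.π y) δ)
    (h0 : J.Del (D.sec y (z + t • ξ)) (A (z + t • ξ) *ᵥ a) ≠ 0) :
    SubAt (fun t : ℂ => J.L (D.sec y (z + t • ξ)) (A (z + t • ξ) *ᵥ a) + e t)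
      (fun t => J.N (D.sec y (z + t • ξ)) (A (z + t • ξ) *ᵥ a)) t ∧
    (fun t : ℂ => J.F (D.sec y (z + t • ξ)) (A (z + t • ξ) *ᵥ a)) =ᶠ[𝓝 t] fun t =>
      Real.exp (-(J.L (D.sec y (z + t • ξ)) (A (z + t • ξ) *ᵥ a) + e t)) *
        (1 + J.N (D.sec y (z + t • ξ)) (A (z + t • ξ) *ᵥ a)) := by
  refine ⟨((H.sub ht h0).comp (g := fun t : ℂ => (z + t • ξ, a)) (by fun_prop)).add
    (he t ht).1 (he t ht).2.1, ?_⟩
  have c : ContinuousAt (fun t : ℂ => z + t • ξ) t := by fun_prop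
  filter_upwards [c.eventually (isOpen_ball.mem_nhds ht), ((H.del ht a).continuousAt.comp
    (f := fun t : ℂ => (z + t • ξ, a)) (by fun_prop)).eventually_ne h0] with s s1 s2
  rw [F, if_neg (by exact s2), (he s s1).2.2, neg_add, Real.exp_add]
  ring

theorem avAt (H : J.Loc y δ A) (hz : z ∈ ball (D.π y) δ) (hξ : wc ξ = 0) (R : ℝ) :
    AvAt volume[|Bl ((A z)ᴴ * J.h (D.sec y z) * A z) R]
      (fun t => J.u R (D.sec (D.sec y z) (D.π (D.sec y z) + t • ξ)))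
      fun a t => J.F (D.sec y (z + t • ξ)) (A (z + t • ξ) *ᵥ a) := by
  classical
  obtain ⟨e, he⟩ := H.harm hz hξ
  obtain ⟨C, hC⟩ := J.F_bd R
  have c : Tendsto (fun t : ℂ => z + t • ξ) (𝓝 0) (𝓝 z) :=
    Continuous.tendsto' (by fun_prop) _ _ (by simp)
  obtain ⟨ρ, ρ0, hρ⟩ := Metric.eventually_nhds_iff_ball.1
    (c.eventually (Eventually.and (isOpen_ball.mem_nhds hz) (RD.germ (H.tgt hz))))
  have k : ∀ t ∈ ball (0 : ℂ) ρ, _ := fun t ht => (H.cst z hz _ (hρ t ht).1 (wc_line hξ z t)).1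
  refine ⟨ρ, C, ρ0, ?_, fun t ht => ?_, ?_⟩
  · let j : (r → ℂ) × ball (0 : ℂ) ρ → (κ ⊕ γ → ℂ) × (r → ℂ) := fun p => (z + (p.2 : ℂ) • ξ, p.1)
    have cj : Continuous j := by fun_prop
    have o : IsOpen {p | J.Del (D.sec y (j p).1) (A (j p).1 *ᵥ (j p).2) ≠ 0} :=
      isOpen_ne_fun (continuous_iff_continuousAt.2 fun p =>
        (H.del (hρ _ p.2.2).1 p.1).continuousAt.comp (f := j) cj.continuousAt) continuous_const
    have m := ContinuousOn.measurable_piecewise (f := fun p => Real.exp (-e p.2) *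
      (Real.exp (-J.L (D.sec y (j p).1) (A (j p).1 *ᵥ (j p).2)) *
        (1 + J.N (D.sec y (j p).1) (A (j p).1 *ᵥ (j p).2)))) (g := fun _ => 0)
      (fun p hp => ContinuousAt.continuousWithinAt (ContinuousAt.mul
        ((he _ (hρ _ p.2.2).1).1.neg.exp.continuousAt.comp
          (f := fun p : (r → ℂ) × ball (0 : ℂ) ρ => (p.2 : ℂ)) (by fun_prop))
        ((H.sub (hρ _ p.2.2).1 hp).sm.continuousAt.comp (f := j) cj.continuousAt)))
      continuousOn_const o.measurableSet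
    convert m using 2 with p
    beta_reduce
    rw [F, (he _ (hρ _ p.2.2).1).2.2]
    split_ifs with h0
    · exact (if_neg fun h => h h0).symm
    · exact (if_pos h0).symm
  · beta_reduce
    rw [RD.π_sec (H.tgt hz), ← (hρ t ht).2, u, int_cond (H.an _ (hρ t ht).1).2.2, k t ht]
  · filter_upwards [ae_cond_mem (isOpen_Bl _ _).measurableSet, cond_absolutelyContinuous.ae_le
      (ae_mulVec (H.an z hz).2.2 (J.ae _ (H.off hz)))] with a a1 a2
    refine ⟨fun t ht => hC _ (H.off (hρ t ht).1) _ ((mem_Bl _ _ _ _).2 (by rwa [k t ht])),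
      fun t => J.Del (D.sec y (z + t • ξ)) (A (z + t • ξ) *ᵥ a), fun t ht =>
        (H.del (hρ t ht).1 a).comp (f := fun t : ℂ => (z + t • ξ, a)) (by fun_prop),
      by simpa using a2, fun t ht h0 => ?_⟩
    obtain ⟨s1, s2⟩ := H.line he (hρ t ht).1 h0
    exact ⟨(cd2 s1.sm).congr_of_eventuallyEq s2, (s1.lev_nonneg 1).trans_eq (lev_congr s2).symm⟩

theorem der_line (H : J.Loc y δ A) {t : ℂ} (ht : z + t • ξ ∈ ball (D.π y) δ)
    (h0 : J.Del (D.sec y (z + t • ξ)) (A (z + t • ξ) *ᵥ a) ≠ 0) :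
    der (-I) 1 (fun t : ℂ => (J.N (D.sec y (z + t • ξ)) (A (z + t • ξ) *ᵥ a) : ℂ)) t =
      der (-I) (ξ, 0) (fun p : (κ ⊕ γ → ℂ) × (r → ℂ) => (J.N (D.sec y p.1) (A p.1 *ᵥ p.2) : ℂ))
        (z + t • ξ, a) := by
  have d : HasDerivAt (fun t : ℂ => (z + t • ξ, a)) (ξ, 0) t := by
    simpa using (((hasDerivAt_id t).smul_const ξ).const_add z).prodMk (hasDerivAt_const t a)
  rw [der_comp_holo (g := fun t : ℂ => (z + t • ξ, a)) (f := fun p : (κ ⊕ γ → ℂ) × (r → ℂ) =>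
    (J.N (D.sec y p.1) (A p.1 *ᵥ p.2) : ℂ)) (sm_ofReal (H.sub ht h0).smN).diff d.differentiableAt,
    fderiv_apply_one_eq_deriv, d.deriv]

end Loc

variable [T2Space S] {q : (κ ⊕ γ → ℂ) → ℂ}

theorem der_zero (P : Prp D q) (hg : PolyG g)
    (hA : ∀ y, g (D.π y) ≠ 0 → ∃ δ > 0, ∃ A, J.Loc y δ A) (H : J.Loc y δ A)
    (hz : z ∈ ball (D.π y) δ) (hξ : wc ξ = 0) (h0 : J.Del (D.sec y z) (A z *ᵥ a) ≠ 0) :
    der (-I) (ξ, 0) (fun p : (κ ⊕ γ → ℂ) × (r → ℂ) => (J.N (D.sec y p.1) (A p.1 *ᵥ p.2) : ℂ))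
      (z, a) = 0 := by
  have h1 : ∀ᵐ a, lev (fun t : ℂ => J.F (D.sec y (z + t • ξ)) (A (z + t • ξ) *ᵥ a)) 0 1 = 0 := by
    refine ae_of_cond (posDef_sub (J.pd _ (H.off hz)) (inj_of_unit (H.an z hz).2.2.isUnit))
      fun R => ?_
    obtain ⟨B, hB⟩ := J.u_bd R
    refine avg_liou P hg ξ hB (fun y hy => ?_) (H.off hz) (H.avAt hz hξ R)
    obtain ⟨δ, δ0, A, H⟩ := hA y hy
    have := H.avAt (mem_ball_self δ0) hξ R
    rw [D.sec_self] at this
    exact ⟨_, _, inferInstance, this⟩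
  obtain ⟨e, he⟩ := H.harm hz hξ
  have c : ∀ b : r → ℂ, ContinuousAt (fun a : r → ℂ => (z, a)) b := fun b => by fun_prop
  have o : IsOpen {a | J.Del (D.sec y z) (A z *ᵥ a) ≠ 0} :=
    isOpen_ne_fun (continuous_iff_continuousAt.2 fun b =>
      (H.del hz b).continuousAt.comp (f := fun a : r → ℂ => (z, a)) (c b)) continuous_const
  refine Measure.eqOn_open_of_ae_eq (μ := volume) (g := fun _ => 0) (f := fun a => der (-I) (ξ, 0)
    (fun p : (κ ⊕ γ → ℂ) × (r → ℂ) => (J.N (D.sec y p.1) (A p.1 *ᵥ p.2) : ℂ)) (z, a))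
    ((ae_restrict_iff' o.measurableSet).2 (h1.mono fun a h2 h3 => ?_)) o
    (fun b hb => (((sm_ofReal (H.sub hz hb).smN).der _ _).continuousAt.comp
      (f := fun a : r → ℂ => (z, a)) (c b)).continuousWithinAt) continuousOn_const h0
  have z0 : z + (0 : ℂ) • ξ = z := by simp
  obtain ⟨s1, s2⟩ := H.line he (t := 0) (a := a) (by rwa [z0]) (by rwa [z0])
  have := s1.der_zero (ξ := 1) ((lev_congr s2).symm.trans h2).le
  rwa [H.der_line (by rwa [z0]) (by rwa [z0]), z0] at this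

/-- the norm is constant along the slices -/
theorem par_b (P : Prp D q) (hg : PolyG g)
    (hA : ∀ y, g (D.π y) ≠ 0 → ∃ δ > 0, ∃ A, J.Loc y δ A) (H : J.Loc y δ A)
    (hz : z ∈ ball (D.π y) δ) : ∀ᶠ z' in 𝓝 z, wc z' = wc z →
      ∀ a, J.N (D.sec y z') (A z' *ᵥ a) = J.N (D.sec y z) (A z *ᵥ a) := by
  obtain ⟨ε, ε0, hε⟩ := Metric.mem_nhds_iff.1 (isOpen_ball.mem_nhds hz)
  filter_upwards [ball_mem_nhds z (half_pos ε0)] with z' h1 h2
  have m : ∀ t ∈ ball (0 : ℂ) 2, z + t • (z' - z) ∈ ball (D.π y) δ := fun t ht => hε (by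
    rw [add_mem_ball_iff_norm, norm_smul]
    nlinarith [mem_ball_zero_iff.1 ht, mem_ball_iff_norm.1 h1, norm_nonneg t, norm_nonneg (z' - z)])
  have hξ : wc (z' - z) = 0 := funext fun i => sub_eq_zero.2 (congrFun h2 i)
  have e0 : z + (0 : ℂ) • (z' - z) = z := by simp
  have e1 : z + (1 : ℂ) • (z' - z) = z' := by simp
  have hz' : z' ∈ ball (D.π y) δ := e1 ▸ m 1 (by simp)
  refine congrFun ((Continuous.ae_eq_iff_eq volume ((J.cont _ (H.off hz')).comp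
    (f := fun a => A z' *ᵥ a) (by fun_prop)) ((J.cont _ (H.off hz)).comp
    (f := fun a => A z *ᵥ a) (by fun_prop))).1 ?_)
  filter_upwards [ae_mulVec (H.an z hz).2.2 (J.ae _ (H.off hz)),
    ae_mulVec (H.an z' hz').2.2 (J.ae _ (H.off hz'))] with a a0 a1
  have := const_off (φ := fun t => J.N (D.sec y (z + t • (z' - z))) (A (z + t • (z' - z)) *ᵥ a))
    (q := fun t => J.Del (D.sec y (z + t • (z' - z))) (A (z + t • (z' - z)) *ᵥ a))
    (fun t ht => (H.del (m t ht) a).comp (f := fun t : ℂ => (z + t • (z' - z), a)) (by fun_prop))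
    (by rwa [e0]) (by rwa [e1]) fun t ht h0 =>
      ⟨((H.sub (m t ht) h0).comp (g := fun t : ℂ => (z + t • (z' - z), a)) (by fun_prop)).smN, by
        rw [H.der_line (m t ht) h0]
        exact der_zero P hg hA H (m t ht) hξ h0⟩
  rwa [e0, e1] at this

end Inp

end

end Pool.Agent.Lib.MP_5c318e_ag.Fb
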