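import Pool.Agent.Lib.MP_5c318e_ag.V.Det
import Pool.Agent.Lib.MP_5c318e_ag.V.Top

/-! Two subharmonic functions attached to a holomorphic frame of a parallel part of the top
piece. -/

set_option autoImplicit false
set_option linter.unusedSectionVars false

namespace Pool.Agent.Lib.MP_5c318e_ag.Fb

open Complex Filter Topology Matrix
open Pool.Agent.Lib.MP_5c318e_ag.V
open scoped ContDiff ComplexConjugate ComplexOrder

noncomputable section

variable {E : Type*} [NormedAddCommGroup E] [NormedSpace ℂ E]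

/-- at `x` the functions `-L` and `log N - L` are smooth and plurisubharmonic -/
structure SubAt (L N : E → ℝ) (x : E) : Prop where
  smL : ContDiffAt ℝ ∞ L x
  smN : ContDiffAt ℝ ∞ N x
  pos : 0 < N x
  le1 : ∀ ξ, lev L x ξ ≤ 0
  le2 : ∀ ξ, lev L x ξ ≤ lev (fun y => Real.log (N y)) x ξ

theorem SubAt.congr {L N L' N' : E → ℝ} {x : E} (h : SubAt L N x) (e : L' =ᶠ[𝓝 x] L)
    (e' : N' =ᶠ[𝓝 x] N) : SubAt L' N' x where
  smL := h.smL.congr_of_eventuallyEq e
  smN := h.smN.congr_of_eventuallyEq e'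
  pos := e'.self_of_nhds ▸ h.pos
  le1 := fun ξ => (lev_congr e).trans_le (h.le1 ξ)
  le2 := fun ξ => by
    exact (lev_congr e).trans_le ((h.le2 ξ).trans_eq (lev_congr (e'.fun_comp Real.log)).symm)

theorem SubAt.comp {E' : Type*} [NormedAddCommGroup E'] [NormedSpace ℂ E'] {L N : E → ℝ}
    {g : E' → E} {x : E'} (h : SubAt L N (g x)) (hg : ContDiffAt ℂ ∞ g x) :
    SubAt (fun y => L (g y)) (fun y => N (g y)) x where
  smL := h.smL.comp x (hg.restrict_scalars ℝ)
  smN := h.smN.comp x (hg.restrict_scalars ℝ)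
  pos := h.pos
  le1 := fun ξ => by
    rw [lev_comp_holo (cd2 h.smL) (hg.of_le (by norm_cast))]
    exact h.le1 _
  le2 := fun ξ => by
    rw [lev_comp_holo (cd2 h.smL) (hg.of_le (by norm_cast)), lev_comp_holo
      (φ := fun y => Real.log (N y)) (cd2 (h.smN.log h.pos.ne')) (hg.of_le (by norm_cast))]
    exact h.le2 _

/-- adding a function that is harmonic in all directions -/
theorem SubAt.add {L N e : E → ℝ} {x : E} (h : SubAt L N x) (he : ContDiffAt ℝ ∞ e x)
    (h0 : ∀ ξ, lev e x ξ = 0) : SubAt (fun y => L y + e y) N x where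
  smL := h.smL.add he
  smN := h.smN
  pos := h.pos
  le1 := fun ξ => by
    rw [lev_add (cd2 h.smL) (cd2 he), h0, add_zero]
    exact h.le1 ξ
  le2 := fun ξ => by
    rw [lev_add (cd2 h.smL) (cd2 he), h0, add_zero]
    exact h.le2 ξ

theorem SubAt.sm {L N : E → ℝ} {x : E} (h : SubAt L N x) :
    ContDiffAt ℝ ∞ (fun y => Real.exp (-L y) * (1 + N y)) x :=
  h.smL.neg.exp.mul (contDiffAt_const.add h.smN)

theorem SubAt.lev_eq {L N : E → ℝ} {x : E} (h : SubAt L N x) (ξ : E) :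
    lev (fun y => Real.exp (-L y) * (1 + N y)) x ξ =
      Real.exp (-L x) * (-lev L x ξ + ‖der (-I) ξ (fun y => (L y : ℂ)) x‖ ^ 2) +
      Real.exp (Real.log (N x) - L x) * (lev (fun y => Real.log (N y)) x ξ - lev L x ξ +
        ‖der (-I) ξ (fun y => (N y : ℂ)) x / N x - der (-I) ξ (fun y => (L y : ℂ)) x‖ ^ 2) := by
  have s := h.smN.log h.pos.ne'
  have e : (fun y => Real.exp (-L y) * (1 + N y)) =ᶠ[𝓝 x]
      fun y => Real.exp (-L y) + Real.exp (Real.log (N y) - L y) := by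
    filter_upwards [h.smN.continuousAt.eventually (lt_mem_nhds h.pos)] with y hy
    rw [sub_eq_add_neg, Real.exp_add, Real.exp_log hy]
    ring
  rw [lev_congr e, lev_add (cd2 h.smL.neg.exp) (cd2 (s.sub h.smL).exp), lev_exp (cd2 h.smL.neg),
    lev_exp (cd2 (s.sub h.smL)), lev_neg (cd2 h.smL), lev_sub (cd2 s) (cd2 h.smL)]
  simp only [ofReal_neg, ofReal_sub]
  rw [der_neg, norm_neg, der_sub (sm_ofReal s).diff (sm_ofReal h.smL).diff,
    der_log (h.smN.differentiableAt (by simp)) h.pos.ne']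

theorem SubAt.lev_nonneg {L N : E → ℝ} {x : E} (h : SubAt L N x) (ξ : E) :
    0 ≤ lev (fun y => Real.exp (-L y) * (1 + N y)) x ξ := by
  have a := neg_nonneg.2 (h.le1 ξ)
  have b := sub_nonneg.2 (h.le2 ξ)
  rw [h.lev_eq]
  positivity

theorem SubAt.der_zero {L N : E → ℝ} {x : E} (h : SubAt L N x) {ξ : E}
    (h0 : lev (fun y => Real.exp (-L y) * (1 + N y)) x ξ ≤ 0) :
    der (-I) ξ (fun y => (N y : ℂ)) x = 0 := by
  have a := neg_nonneg.2 (h.le1 ξ)
  have b := sub_nonneg.2 (h.le2 ξ)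
  rw [h.lev_eq] at h0
  generalize der (-I) ξ (fun y => (N y : ℂ)) x = u at *
  generalize der (-I) ξ (fun y => (L y : ℂ)) x = v at *
  have p1 := Real.exp_pos (-L x)
  have p2 := Real.exp_pos (Real.log (N x) - L x)
  have c1 := mul_nonneg p1.le (add_nonneg a (sq_nonneg ‖v‖))
  have c2 := mul_nonneg p2.le (add_nonneg b (sq_nonneg ‖u / N x - v‖))
  have d1 : -lev L x ξ + ‖v‖ ^ 2 ≤ 0 := nonpos_of_mul_nonpos_right (by linarith) p1
  have d2 : lev (fun y => Real.log (N y)) x ξ - lev L x ξ + ‖u / N x - v‖ ^ 2 ≤ 0 :=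
    nonpos_of_mul_nonpos_right (by linarith) p2
  have e1 : v = 0 := norm_eq_zero.1 (pow_eq_zero_iff two_ne_zero |>.1
    (le_antisymm (by linarith) (sq_nonneg _)))
  have e2 : u / N x - v = 0 := norm_eq_zero.1 (pow_eq_zero_iff two_ne_zero |>.1
    (le_antisymm (by linarith) (sq_nonneg _)))
  rw [e1, sub_zero, div_eq_zero_iff] at e2
  exact e2.resolve_right (ofReal_ne_zero.2 h.pos.ne')

variable {n s : Type} [Fintype n] [Fintype s] [DecidableEq n] [DecidableEq s]

theorem subAt_top {U : Set E} {h Y : E → Matrix n n ℂ} {K : ℝ} (G : GM U h Y K)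
    {X : E → Matrix n s ℂ} {p : ℂ} (hX : ∀ x ∈ U, ∀ i j, AnalyticAt ℂ (fun y => X y i j) x)
    (hY : ∀ x ∈ U, Y x * X x = p • X x) (inj : ∀ x ∈ U, Function.Injective (X x).mulVec) {x : E}
    (hx : x ∈ U) (full : ∀ ξ, ∃ c : Matrix s s ℂ, derM (-I) ξ X x = th h ξ x * X x + X x * c)
    {a : E → s → ℂ} (ha : ∀ y i, AnalyticAt ℂ (fun y => a y i) y) (h0 : a x ≠ 0) :
    SubAt (ld fun y => (X y)ᴴ * h y * X y)
      (fun y => (star (a y) ⬝ᵥ ((X y)ᴴ * h y * X y) *ᵥ a y).re) x := by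
  have key : ∀ {k : Type} [Fintype k] [DecidableEq k] {Z : E → Matrix n k ℂ},
      (∀ x ∈ U, ∀ i j, AnalyticAt ℂ (fun y => Z y i j) x) → (∀ x ∈ U, Y x * Z x = p • Z x) →
      (∀ x ∈ U, SmM Z x) ∧ ∀ ξ, ∀ x ∈ U, derM I ξ Z x = 0 ∧ ths h ξ x * Z x = 0 :=
    fun {k} _ _ {Z} hZ hY => by
      have s : ∀ x ∈ U, SmM Z x := fun x hx i j =>
        ((hZ x hx i j).contDiffAt (n := ∞)).restrict_scalars ℝ
      refine ⟨s, fun ξ x hx => ?_⟩
      have d : derM I ξ Z x = 0 := by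
        ext i j
        exact dbar_holo (hZ x hx i j).differentiableAt
      refine ⟨d, ?_⟩
      simpa [Ths, ths_const] using top_ths (p := p) (gm_const G.op (PosDef.one (n := k))) G hx
        (s x hx) d fun y hy => by simpa [Yh] using hY y hy
  obtain ⟨s1, t1⟩ := key hX hY
  obtain ⟨s2, t2⟩ := key (k := Unit) (Z := fun y => X y * replicateCol Unit (a y))
    (fun x hx i j => by
      simp only [Matrix.mul_apply, replicateCol_apply]
      exact Finset.analyticAt_fun_sum _ fun l _ => (hX x hx i l).mul (ha x l))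
    fun x hx => by rw [← Matrix.mul_assoc, hY x hx, Matrix.smul_mul]
  have M := G.toMet.gram s1 inj
  have p1 := M.pos x hx
  have p2 := G.pos x hx
  have one : (1 : Matrix Unit Unit ℂ).PosDef := PosDef.one
  have e : ∀ y, (star (a y) ⬝ᵥ ((X y)ᴴ * h y * X y) *ᵥ a y).re =
      nsq (1 : Matrix Unit Unit ℂ) (h y) (X y * replicateCol Unit (a y)) := fun y => by
    rw [← nsq_sub_obj, nsq, ip_col]
  have l1 : ∀ ξ, lev (ld fun y => (X y)ᴴ * h y * X y) x ξ =
      -nsq ((X x)ᴴ * h x * X x) (h x) (th h ξ x * X x) := fun ξ => by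
    obtain ⟨c, hc⟩ := full ξ
    rw [lev_ld_hol G.hm hx s1 inj fun y hy => by rw [(t1 ξ y hy).1, (t1 ξ y hy).2], hc,
      add_sub_cancel_left, (t1 ξ x hx).2, perp, cof_self p1, sub_self, nsq_zero, add_zero, zero_sub]
  have z : replicateCol Unit (a x) ≠ 0 := fun z => h0 (funext fun i => congrFun (congrFun z i) ())
  have q : 0 < nsq (1 : Matrix Unit Unit ℂ) (h x) (X x * replicateCol Unit (a x)) := by
    rw [← nsq_sub_obj]
    exact nsq_pos one p1 z
  simp only [e]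
  have M1 := hm_const (E := E) G.op one
  refine ⟨M.sm_ld hx, sm_nsq M1.toMet G.toMet hx (s2 x hx), q, fun ξ => ?_, fun ξ => ?_⟩
  · rw [l1]
    exact neg_nonpos.2 (nsq_nonneg p1 p2 _)
  · refine le_trans ?_ (lev_log_nsq_hol_ge (ξ := ξ) M1 G.hm hx s2
      (fun y hy => by simp [Ths, ths_const, (t2 ξ y hy).1, (t2 ξ y hy).2])
      fun z => by simp [z, nsq_zero] at q)
    simp only [Ths, Th, ths_const, th_const, Matrix.mul_zero, sub_zero, (t2 ξ x hx).2, nsq_zero]
    rw [l1, le_div_iff₀ q, zero_sub, neg_mul, neg_le_neg_iff, ← Matrix.mul_assoc,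
      ← nsq_sub_obj (ι := X x) 1 (h x)]
    exact nsq_mul one p1 p2 _ _

end

end Pool.Agent.Lib.MP_5c318e_ag.Fb
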